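import Pool.Agent.W544.FF.Defs

set_option autoImplicit false
set_option linter.unusedSectionVars false

open Finset

namespace Pool.Agent.W381.FF

open Pool.Agent.W544.FF

noncomputable section

variable {X : Type} [DecidableEq X] {k : ℕ}

/-- perfect matchings of the slots in `S`, extended by the identity -/
def Pm (I : Fin k → X) (S : Finset (Fin k)) (σ : Fin k → Fin k) : Prop :=
  (∀ j ∈ S, σ j ∈ S ∧ σ (σ j) = j ∧ σ j ≠ j ∧ I (σ j) = I j) ∧ ∀ j, j ∉ S → σ j = j

open Classical in
/-- their number -/
def cnt (I : Fin k → X) (S : Finset (Fin k)) : ℕ := (univ.filter (Pm I S)).card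

/-- removal of a pair -/
def rem (y b : Fin k) (σ : Fin k → Fin k) : Fin k → Fin k :=
  fun j => if j = y ∨ j = b then j else σ j

/-- addition of a pair -/
def adj (y b : Fin k) (σ : Fin k → Fin k) : Fin k → Fin k :=
  fun j => if j = y then b else if j = b then y else σ j

lemma rem_of_ne {y b j : Fin k} {σ : Fin k → Fin k} (h1 : j ≠ y) (h2 : j ≠ b) :
    rem y b σ j = σ j := by
  unfold rem
  rw [if_neg]
  rintro (h | h)
  · exact h1 h
  · exact h2 h

lemma adj_y (y b : Fin k) (σ : Fin k → Fin k) : adj y b σ y = b := by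
  unfold adj
  rw [if_pos rfl]

lemma adj_b {y b : Fin k} (h : b ≠ y) (σ : Fin k → Fin k) : adj y b σ b = y := by
  unfold adj
  rw [if_neg h, if_pos rfl]

lemma adj_of_ne {y b j : Fin k} {σ : Fin k → Fin k} (h1 : j ≠ y) (h2 : j ≠ b) :
    adj y b σ j = σ j := by
  unfold adj
  rw [if_neg h1, if_neg h2]

lemma mem_S' {S : Finset (Fin k)} {y b j : Fin k} :
    j ∈ (S.erase y).erase b ↔ j ≠ b ∧ j ≠ y ∧ j ∈ S := by
  rw [mem_erase, mem_erase]

open Classical in
lemma card_pair (I : Fin k → X) (S : Finset (Fin k)) {y b : Fin k} (hy : y ∈ S) (hb : b ∈ S)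
    (hne : b ≠ y) (hI : I b = I y) :
    ((univ.filter (Pm I S)).filter (fun σ => σ y = b)).card = cnt I ((S.erase y).erase b) := by
  unfold cnt
  refine Finset.card_nbij' (rem y b) (adj y b) ?_ ?_ ?_ ?_
  · intro σ hσ
    rw [Finset.mem_coe, mem_filter, mem_filter] at hσ
    obtain ⟨⟨-, h1, h2⟩, h3⟩ := hσ
    rw [Finset.mem_coe, mem_filter]
    refine ⟨mem_univ _, ?_, ?_⟩
    · intro j hj
      rw [mem_S'] at hj
      obtain ⟨hjb, hjy, hjS⟩ := hj
      obtain ⟨k1, k2, k3, k4⟩ := h1 j hjS
      have hs1 : σ j ≠ y := fun h => hjb (by rw [← k2, h, h3])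
      have hs2 : σ j ≠ b := fun h => hjy (by
        rw [← k2, h, ← h3]
        exact (h1 y hy).2.1)
      rw [rem_of_ne hjy hjb]
      refine ⟨mem_S'.2 ⟨hs2, hs1, k1⟩, ?_, k3, k4⟩
      rw [rem_of_ne hs1 hs2]
      exact k2
    · intro j hj
      by_cases hjy : j = y
      · unfold rem; rw [if_pos (Or.inl hjy)]
      by_cases hjb : j = b
      · unfold rem; rw [if_pos (Or.inr hjb)]
      rw [rem_of_ne hjy hjb]
      exact h2 j fun h => hj (mem_S'.2 ⟨hjb, hjy, h⟩)
  · intro σ hσ
    rw [Finset.mem_coe, mem_filter] at hσ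
    obtain ⟨-, h1, h2⟩ := hσ
    rw [Finset.mem_coe, mem_filter, mem_filter]
    refine ⟨⟨mem_univ _, ?_, ?_⟩, adj_y y b σ⟩
    · intro j hj
      by_cases hjy : j = y
      · subst hjy
        rw [adj_y, adj_b hne]
        exact ⟨hb, rfl, hne, hI⟩
      by_cases hjb : j = b
      · subst hjb
        rw [adj_b hne, adj_y]
        exact ⟨hy, rfl, hne.symm, hI.symm⟩
      obtain ⟨k1, k2, k3, k4⟩ := h1 j (mem_S'.2 ⟨hjb, hjy, hj⟩)
      rw [mem_S'] at k1
      rw [adj_of_ne hjy hjb, adj_of_ne k1.2.1 k1.1]
      exact ⟨k1.2.2, k2, k3, k4⟩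
    · intro j hj
      have hjy : j ≠ y := fun h => hj (h ▸ hy)
      have hjb : j ≠ b := fun h => hj (h ▸ hb)
      rw [adj_of_ne hjy hjb]
      exact h2 j fun h => hj (mem_S'.1 h).2.2
  · intro σ hσ
    rw [Finset.mem_coe, mem_filter, mem_filter] at hσ
    obtain ⟨⟨-, h1, h2⟩, h3⟩ := hσ
    funext j
    by_cases hjy : j = y
    · subst hjy
      rw [adj_y, h3]
    by_cases hjb : j = b
    · subst hjb
      rw [adj_b hne, ← h3]
      exact ((h1 y hy).2.1).symm
    rw [adj_of_ne hjy hjb, rem_of_ne hjy hjb]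
  · intro σ hσ
    rw [Finset.mem_coe, mem_filter] at hσ
    obtain ⟨-, h1, h2⟩ := hσ
    funext j
    by_cases hjy : j = y
    · have : j ∉ (S.erase y).erase b := fun h => (mem_S'.1 h).2.1 hjy
      rw [h2 j this]
      unfold rem
      rw [if_pos (Or.inl hjy)]
    by_cases hjb : j = b
    · have : j ∉ (S.erase y).erase b := fun h => (mem_S'.1 h).1 hjb
      rw [h2 j this]
      unfold rem
      rw [if_pos (Or.inr hjb)]
    rw [rem_of_ne hjy hjb, adj_of_ne hjy hjb]

open Classical in
lemma cnt_sum (I : Fin k → X) (S : Finset (Fin k)) {y : Fin k} (hy : y ∈ S) :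
    cnt I S = ∑ b ∈ (S.filter (fun j => I j = I y)).erase y, cnt I ((S.erase y).erase b) := by
  have h1 : cnt I S = ∑ b ∈ (S.filter (fun j => I j = I y)).erase y,
      ((univ.filter (Pm I S)).filter (fun σ => σ y = b)).card := by
    unfold cnt
    refine Finset.card_eq_sum_card_fiberwise (f := fun σ : Fin k → Fin k => σ y) ?_
    intro σ hσ
    rw [Finset.mem_coe, mem_filter] at hσ
    obtain ⟨k1, k2, k3, k4⟩ := hσ.2.1 y hy
    rw [Finset.mem_coe, mem_erase, mem_filter]
    exact ⟨k3, k1, k4⟩
  rw [h1]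
  refine Finset.sum_congr rfl fun b hb => ?_
  rw [mem_erase, mem_filter] at hb
  exact card_pair I S hy hb.2.1 hb.1 hb.2.2

lemma cnt_empty (I : Fin k → X) : cnt I ∅ = 1 := by
  classical
  unfold cnt
  have : univ.filter (Pm I (∅ : Finset (Fin k))) = {id} := by
    ext σ
    rw [mem_filter, mem_singleton]
    constructor
    · rintro ⟨-, -, h2⟩
      funext j
      exact h2 j (notMem_empty j)
    · rintro rfl
      exact ⟨mem_univ _, fun j hj => absurd hj (notMem_empty j), fun j _ => rfl⟩
  rw [this, card_singleton]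

lemma cnt_eq [Fintype X] (I : Fin k → X) (S : Finset (Fin k)) :
    (cnt I S : ℝ) = ∏ x, mom (S.filter (fun j => I j = x)).card := by
  classical
  induction S using Finset.strongInduction with
  | H S ih =>
    rcases S.eq_empty_or_nonempty with rfl | ⟨y, hy⟩
    · rw [cnt_empty]
      simp [mom]
    · have hym : y ∈ S.filter (fun j => I j = I y) := mem_filter.2 ⟨hy, rfl⟩
      obtain ⟨a, ha⟩ : ∃ a, (S.filter (fun j => I j = I y)).card = a + 1 :=
        ⟨(S.filter (fun j => I j = I y)).card - 1, by
          have := Finset.card_pos.2 ⟨y, hym⟩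
          omega⟩
      have hT : ((S.filter (fun j => I j = I y)).erase y).card = a := by
        rw [Finset.card_erase_of_mem hym, ha]; omega
      set R : ℝ := ∏ x ∈ univ.erase (I y), mom (S.filter (fun j => I j = x)).card with hR
      have hsplit : ∏ x, mom (S.filter (fun j => I j = x)).card = mom (a + 1) * R := by
        rw [hR, ← ha]
        exact (Finset.mul_prod_erase univ (fun x => mom (S.filter (fun j => I j = x)).card)
          (mem_univ (I y))).symm
      have hb : ∀ b ∈ (S.filter (fun j => I j = I y)).erase y,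
          (cnt I ((S.erase y).erase b) : ℝ) = mom (a - 1) * R := by
        intro b hb
        have hb' := hb
        rw [mem_erase, mem_filter] at hb
        obtain ⟨hby, hbS, hbI⟩ := hb
        have hss : (S.erase y).erase b ⊂ S :=
          lt_of_le_of_lt (Finset.erase_subset _ _) (Finset.erase_ssubset hy)
        rw [ih _ hss, ← Finset.mul_prod_erase univ _ (mem_univ (I y))]
        congr 1
        · have e1 : ((S.erase y).erase b).filter (fun j => I j = I y) =
              ((S.filter (fun j => I j = I y)).erase y).erase b := by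
            rw [Finset.filter_erase, Finset.filter_erase]
          rw [e1, Finset.card_erase_of_mem hb', hT]
        · rw [hR]
          refine Finset.prod_congr rfl fun x hx => ?_
          rw [mem_erase] at hx
          have e1 : ((S.erase y).erase b).filter (fun j => I j = x) =
              S.filter (fun j => I j = x) := by
            ext j
            rw [mem_filter, mem_S', mem_filter]
            constructor
            · rintro ⟨⟨_, _, h3⟩, h4⟩
              exact ⟨h3, h4⟩
            · rintro ⟨h3, h4⟩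
              refine ⟨⟨?_, ?_, h3⟩, h4⟩
              · rintro rfl
                exact hx.1 (by rw [← h4, hbI])
              · rintro rfl
                exact hx.1 h4.symm
          rw [e1]
      rw [cnt_sum I S hy]
      push_cast
      rw [Finset.sum_congr rfl hb, Finset.sum_const, hT, nsmul_eq_mul, hsplit]
      rcases a with _ | a
      · simp [mom]
      · rw [show a + 1 + 1 = a + 2 from rfl, show a + 1 - 1 = a from rfl]
        simp only [mom]
        push_cast
        ring

theorem ga2 : S_ga2 := by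
  classical
  intro X _ _ k I
  have h := cnt_eq I univ
  rw [← h]
  unfold wick cnt
  norm_cast
  congr 1
  ext σ
  rw [mem_filter, mem_filter]
  constructor
  · rintro ⟨h0, h1, h2, h3⟩
    exact ⟨h0, fun j _ => ⟨mem_univ _, h1 j, h2 j, h3 j⟩, fun j hj => absurd (mem_univ j) hj⟩
  · rintro ⟨h0, h1, -⟩
    exact ⟨h0, fun j => (h1 j (mem_univ j)).2.1, fun j => (h1 j (mem_univ j)).2.2.1,
      fun j => (h1 j (mem_univ j)).2.2.2⟩

end

end Pool.Agent.W381.FF
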